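import Pool.Agent.Lib.P325ac.Main

/-!
Constant-depth circuits cannot solve the gap problem for unique games with completeness `1 - ε` and
soundness `δ`, for all `ε` and `δ`.

Definitions: `IsProb`, `br`, `esrc`, `etgt`, `MaxDeg`, `shiftVal`, `IsJunta`, `IsCirc` in
`Pool/Agent/Lib/P325ac/Base.lean`.
-/

open Finset
open scoped BigOperators

namespace Pool.Agent.Lib.P325old.ConstantDepth

open Pool.Agent.P325ac (IsProb br esrc etgt MaxDeg shiftVal IsJunta IsCirc)

/-- Let `0 < δ < 1`, `2 ^ k ≥ 64 / δ ^ 2` and `D = ⌈16 / δ⌉`. There are bipartite graphs `Ed N` with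
`N` left and `N` right vertices and degrees at most `D` such that for every `0 < ε < 1` there is `C`
with the following property for all `N ≥ 2 D ^ 2`. There are a probability distribution `μ1` on the
shift games (unique games with the label set `(ℤ / 2) ^ k` and the constraints
`z (src e) + c e = z (tgt e)`) on the graph `Ed N` that have value at least `1 - ε` and a
probability distribution `μ0` on those that have value at most `δ`, such that for every circuit
with `h` levels of unbounded AND and OR gates (with free negations) and any number `card G` of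
gates, whose inputs are arbitrary functions of at most `w` constraints, the probabilities that `μ1`
and `μ0` are accepted differ by at most
`(C (w + log (card G * N))) ^ (5 h) / N ^ (ε / (2 k log D))`. -/
theorem result (δ : ℝ) (hδ : 0 < δ) (hδ1 : δ < 1) (k : ℕ) (hk : 64 / δ ^ 2 ≤ 2 ^ k) :
    ∃ Ed : (N : ℕ) → Finset (Fin N × Fin N), (∀ N, MaxDeg (Ed N) ⌈16 / δ⌉₊) ∧
      ∀ ε : ℝ, 0 < ε → ε < 1 → ∃ C : ℝ, 0 < C ∧ ∀ N : ℕ, 2 * ⌈16 / δ⌉₊ ^ 2 ≤ N →
        ∃ μ1 μ0 : ({p // p ∈ Ed N} → Fin k → Bool) → ℝ, IsProb μ1 ∧ IsProb μ0 ∧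
          (∀ c, μ1 c ≠ 0 → 1 - ε ≤ shiftVal (esrc (Ed N)) (etgt (Ed N)) k c) ∧
          (∀ c, μ0 c ≠ 0 → shiftVal (esrc (Ed N)) (etgt (Ed N)) k c ≤ δ) ∧
          ∀ (G : Type) [Fintype G] (h w : ℕ) (lv : G → ℕ)
            (val : G → ({p // p ∈ Ed N} → Fin k → Bool) → Bool), 1 ≤ w →
            IsCirc (IsJunta w) lv val → (∀ g, lv g < h) → ∀ g,
            |∑ c, μ1 c * br (val g c) - ∑ c, μ0 c * br (val g c)| ≤
              (C * (w + Real.log (Fintype.card G * N))) ^ (5 * h) /
                (N : ℝ) ^ (ε / (2 * k * Real.log ⌈16 / δ⌉₊)) :=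
  Pool.Agent.P325ac.constant_depth δ hδ hδ1 k hk

end Pool.Agent.Lib.P325old.ConstantDepth
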