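import Mathlib
import Pool.Agent.Lib.P325n.Main

/-!
# A dichotomy for families of constraint permutations, with NP-hardness in full

The definitions `Inst`, `Inst.encode`, `InNP`, `NPHard`, `Over`, `GapHard`, `allPerms`, `Spread` are in
`Pool/Agent/Lib/P325n/Defs.lean`; `Game` and `Game.value` in
`Pool/Agent/Lib/P325f1f/Dich/GameDefs.lean`.
-/

namespace Pool.Agent.Lib.P325old.ConstraintDichotomy

open Pool.Agent.P325n

/-- Let `F` be any family of pairs of a number `q` of labels and a set `P` of permutations of `Fin q`,
and let `0 < c ≤ 1` (the completeness).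
1. The gap problem for unique games with all constraint permutations in one member of `F` is
NP-hard (for all `ε, δ > 0` some member of `F` has the gap `c - ε` against `δ` NP-hard under
deterministic polynomial-time many-one reductions) if and only if the same holds for unrestricted
unique games and `F` is spread.
2. `F` is spread if and only if games over `F` can have arbitrarily small value.

For `c = 1` the unrestricted statement `GapHard 1 allPerms` is the Unique Games Conjecture. -/
theorem result (c : ℚ) (hc0 : 0 < c) (hc1 : c ≤ 1)
    (F : (q : ℕ) → Set (Set (Equiv.Perm (Fin q)))) :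
    (GapHard c F ↔ GapHard c allPerms ∧ Spread F) ∧
      (Spread F ↔ ∀ δ : ℚ, 0 < δ → ∃ q : ℕ, 0 < q ∧ ∃ P ∈ F q, ∃ I ∈ Over P,
        I.game.value ≤ (δ : ℝ)) :=
  ⟨gapHard_iff c hc0 hc1 F, spread_iff F⟩

end Pool.Agent.Lib.P325old.ConstraintDichotomy
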