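import Pool.Agent.Lib.P325av.Fin
import Pool.Agent.Lib.P325hx.Exact

/-!
The exponent of the linear and convex programs that solve the gap problem `(s, δ)` for unique games
on expanders: it is of the order of `log (1 / s) / log (1 / δ)`.

Definitions: `Game`, `Game.satFrac`, `Game.value`, `Game.SecondEigenvalueLE` in
`Pool/Agent/Lib/P325x/Defs.lean`; `relabel`, `Certifies` in `Pool/Agent/Lib/P325av/Defs.lean`;
`IsLocalExpectation` in `Pool/Agent/Lib/P325h/Defs.lean`.
-/

namespace Pool.Agent.Lib.P325old.ConvexExponent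

open Pool.Agent.Lib.P325x (Game)
open Pool.Agent.Lib.P325h (IsLocalExpectation)
open Pool.Agent.Lib.P325av (relabel Certifies)

/-- Let `0 < δ ≤ 1 / 2`, `δ ≤ s < 1` and `x = log (1 / s) / log (1 / δ)`.

(1) If a unique game with `n` vertices (and any number of labels) has second eigenvalue at most `δ`
and a Sherali-Adams solution of degree `r ≥ 1000 n ^ (12 x) / (s ^ 4 (1 - s) ^ 2)` which gives the
fraction of satisfied edges the value at least `s`, then the value of the game is at least `δ`.

(2) Let `k ≥ 36 / δ ^ 2` and `a = x / 225000000`. For all large `N` there is one unique game `G` on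
`N` left and `N` right vertices with linear constraints `z (src e) + b e = z (dst e)` over `ZMod k`,
of value at most `δ`, with second eigenvalue at most `δ` and degrees at most `⌈5 / δ⌉ ^ 8`, on which
every convex program with at most `exp ((2 N) ^ a)` constraints of dimension at most `(2 N) ^ a` fails
for almost all names of the vertices: let `Y` be a real vector space with `R ≤ exp ((2 N) ^ a)`
constraints `A j y ∈ C j`, where `A j : Y → ℝ ^ D` is linear, `D ≤ (2 N) ^ a` and `C j` is an
arbitrary convex set, and with a feasible point `pt z` for every labeling `z` of the vertices by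
`ZMod k`. Then for all but at most `exp (-((2 N) ^ a)) * (N !) ^ 2` of the `(N !) ^ 2` pairs of
permutations `g = (σ, τ)` of the left and of the right vertices the program does not certify value
at most `s` for the relabeled game `relabel G g`: every affine objective `w y + w0` that takes at
`pt z`, for every labeling `z`, the fraction of constraints of `relabel G g` satisfied by `z` as its
value, is larger than `s` at some feasible point `y`. (`D = 1` and `C j = Set.Iic (c j)`: linear
programs.) -/
theorem result (s δ : ℝ) (hδ : 0 < δ) (hδ2 : δ ≤ 1 / 2) (hδs : δ ≤ s) (hs : s < 1) :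
    (∀ (U W Ω ι : Type) [Fintype U] [Fintype W] [Fintype Ω] [Fintype ι]
      (I : Game U W Ω ι), I.SecondEigenvalueLE δ → ∀ (r : ℕ),
      1000 / (s ^ 4 * (1 - s) ^ 2) * ((Fintype.card U : ℝ) + Fintype.card W) ^
        (12 * (Real.log (1 / s) / Real.log (1 / δ))) ≤ r →
      ∀ (E : ((U ⊕ W → Ω) → ℝ) →ₗ[ℝ] ℝ), IsLocalExpectation r E →
      s ≤ E (fun z => I.satFrac (fun u => z (Sum.inl u)) (fun w => z (Sum.inr w))) →
      δ ≤ I.value) ∧
    ∀ (k : ℕ), 36 ≤ (k : ℝ) * δ ^ 2 →
    ∃ N0 : ℕ, ∀ N ≥ N0, ∃ (ι : Type) (_ : Fintype ι) (src dst : ι → Fin N) (b : ι → ZMod k),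
      Nonempty ι ∧
      (Game.mk src dst (fun e => Equiv.addRight (b e))).value ≤ δ ∧
      (Game.mk src dst (fun e => Equiv.addRight (b e))).SecondEigenvalueLE δ ∧
      (∀ v, (Finset.univ.filter (fun e => src e = v)).card ≤ ⌈5 / δ⌉₊ ^ 8) ∧
      (∀ v, (Finset.univ.filter (fun e => dst e = v)).card ≤ ⌈5 / δ⌉₊ ^ 8) ∧
      ∀ (Y : Type) [AddCommGroup Y] [Module ℝ Y] (R D : ℕ)
        (A : Fin R → Y →ₗ[ℝ] (Fin D → ℝ)) (C : Fin R → Set (Fin D → ℝ))
        (pt : (Fin N ⊕ Fin N → ZMod k) → Y),
        (R : ℝ) ≤ Real.exp ((2 * (N : ℝ)) ^ (Real.log (1 / s) / Real.log (1 / δ) / 225000000)) →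
        (D : ℝ) ≤ (2 * (N : ℝ)) ^ (Real.log (1 / s) / Real.log (1 / δ) / 225000000) →
        (∀ j, Convex ℝ (C j)) → (∀ z j, A j (pt z) ∈ C j) →
        (Nat.card {g : Equiv.Perm (Fin N) × Equiv.Perm (Fin N) //
          Certifies {y | ∀ j, A j y ∈ C j} pt s
            (relabel (Game.mk src dst (fun e => Equiv.addRight (b e))) g)} : ℝ) ≤
          Real.exp (-((2 * (N : ℝ)) ^ (Real.log (1 / s) / Real.log (1 / δ) / 225000000))) *
            (N.factorial : ℝ) ^ 2 :=
  ⟨fun U W Ω ι _ _ _ _ I hI r hr E hE hval =>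
      Pool.Agent.Lib.P325hx.sa_exact_le hδ hδ2 hδs hs U W Ω ι I hI r E hE hr hval,
    fun k hk => Pool.Agent.Lib.P325av.mainAv s δ hδ hδ2 hδs hs k hk⟩

end Pool.Agent.Lib.P325old.ConvexExponent
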