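import Pool.Agent.Lib.P325q.ExtUp
import Pool.Agent.Lib.P325q.ExtSet
import Pool.Agent.Lib.P325qz.Cube
import Pool.Agent.Lib.P325qs.Final

/-!
The exponent of the decomposition method for unique games.

Definitions: `density`, `IsFracPartition`, `cutEnergy`, `mass`, `energy`, `IsSlow` in
`Pool/Agent/Lib/P325q/Defs.lean`; the label-extended graph `extS`, `extT`, `extW` in
`Pool/Agent/Lib/P325q/ExtDefs.lean`.
-/

namespace Pool.Agent.Lib.P325old.DecompositionExponent

open Pool.Agent.Lib.P325q

/-- Weighted multigraphs: `s e`, `t e` are the ends of the edge `e` and `w e ≥ 0` is its weight (total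
weight `1`). A unique game on the graph has a permutation `g e` of the labels for every edge.

Fractional partitions. (1) Every graph with `n` vertices has, for every `K > 0`, a fractional partition
of cut energy at most `K ^ 2` such that, for every unique game on the graph, the label-extended graph of
every part has at most `|L| * n ^ (x (1 + log (1 / x)))` eigenvalues `≤ x K ^ 2`, for all `0 < x ≤ 1`.
(2) For all `m ≥ 1` and `0 < K ^ 2 ≤ 1 / 32` there is a regular graph with `n = 2 ^ m` vertices such that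
for every unique game on it and EVERY fractional partition of cut energy at most `K ^ 2`, for all
`1024 / m ≤ x ≤ 1` the label-extended graph of some part has at least
`(1 / 20) n ^ (x log (2 / x) / 3000)` eigenvalues `≤ x K ^ 2`.

Partitions into sets. (3) Every graph with `n` vertices has, for every `κ > 0`, a partition into sets
that cuts edges of total weight at most `κ` such that, for every unique game on the graph, the
label-extended graph of every part has at most `|L| * n ^ (4 √x)` eigenvalues `≤ x κ ^ 2`, for all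
`x > 0`. (4) For all `0 < κ ≤ 1 / 280` and `0 < x ≤ 1` there are arbitrarily large graphs (all edges of
the same weight) such that for every unique game on it and EVERY partition into sets that cuts edges of
total weight at most `κ` the label-extended graph of some part has at least
`(1 / 20) n ^ (x log (2 / x) / 30000000)` eigenvalues `≤ x κ ^ 2`. -/
theorem result :
    (∀ (V ι : Type) [Fintype V] [DecidableEq V] [Fintype ι] (s t : ι → V) (w : ι → ℝ),
      (∀ e, 0 ≤ w e) → ∑ e, w e = 1 → ∀ K : ℝ, 0 < K →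
      ∃ (N : ℕ) (ρ : Fin N → V → ℝ), IsFracPartition ρ ∧ cutEnergy s t w ρ ≤ K ^ 2 ∧
        ∀ (L : Type) [Fintype L] [DecidableEq L] (g : ι → Equiv.Perm L) (i : Fin N) (x : ℝ),
          0 < x → x ≤ 1 → ∀ F : Submodule ℝ (V × L → ℝ),
          IsSlow (extS s) (extT t g) (extW w) (fun y => ρ i y.1) (x * K ^ 2) F →
          (Module.finrank ℝ F : ℝ) ≤
            Fintype.card L * (Fintype.card V : ℝ) ^ (x * (1 + Real.log (1 / x)))) ∧
    (∀ (m : ℕ) (K : ℝ), 0 < m → 0 < K → K ^ 2 ≤ 1 / 32 →
      ∃ (V ι : Type) (_ : Fintype V) (_ : DecidableEq V) (_ : Fintype ι) (s t : ι → V)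
        (w : ι → ℝ), (∀ e, 0 ≤ w e) ∧ ∑ e, w e = 1 ∧ Fintype.card V = 2 ^ m ∧
        (∀ x, density s t w x = 1 / Fintype.card V) ∧
        ∀ (L : Type) [Fintype L] [DecidableEq L] [Nonempty L] (g : ι → Equiv.Perm L)
          (I : Type) [Fintype I] (ρ : I → V → ℝ), IsFracPartition ρ →
          cutEnergy s t w ρ ≤ K ^ 2 → ∀ x : ℝ, 1024 / m ≤ x → x ≤ 1 →
          ∃ (i : I) (F : Submodule ℝ (V × L → ℝ)),
            IsSlow (extS s) (extT t g) (extW w) (fun y => ρ i y.1) (x * K ^ 2) F ∧
            1 / 20 * (Fintype.card V : ℝ) ^ (x * Real.log (2 / x) / 3000) ≤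
              Module.finrank ℝ F) ∧
    (∀ (V ι : Type) [Fintype V] [DecidableEq V] [Fintype ι] (s t : ι → V) (w : ι → ℝ),
      (∀ e, 0 ≤ w e) → ∑ e, w e = 1 → ∀ κ : ℝ, 0 < κ →
      ∃ (N : ℕ) (P : V → Fin N), (∑ e, if P (s e) = P (t e) then 0 else w e) ≤ κ ∧
        ∀ (L : Type) [Fintype L] [DecidableEq L] (g : ι → Equiv.Perm L) (i : Fin N) (x : ℝ),
          0 < x → ∀ F : Submodule ℝ (V × L → ℝ),
          IsSlow (extS s) (extT t g) (extW w) (fun y => if P y.1 = i then 1 else 0)
            (x * κ ^ 2) F →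
          (Module.finrank ℝ F : ℝ) ≤ Fintype.card L * (Fintype.card V : ℝ) ^ (4 * √x)) ∧
    (∀ κ x : ℝ, 0 < κ → κ ≤ 1 / 280 → 0 < x → x ≤ 1 → ∀ n0 : ℕ,
      ∃ (V ι : Type) (_ : Fintype V) (_ : DecidableEq V) (_ : Fintype ι) (s t : ι → V)
        (w : ι → ℝ), n0 ≤ Fintype.card V ∧ (∀ e, 0 ≤ w e) ∧ (∀ e e', w e = w e') ∧
        ∑ e, w e = 1 ∧
        ∀ (L : Type) [Fintype L] [DecidableEq L] [Nonempty L] (g : ι → Equiv.Perm L)
          (N : ℕ) (P : V → Fin N), (∑ e, if P (s e) = P (t e) then 0 else w e) ≤ κ →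
          ∃ (i : Fin N) (F : Submodule ℝ (V × L → ℝ)),
            IsSlow (extS s) (extT t g) (extW w) (fun y => if P y.1 = i then 1 else 0)
              (x * κ ^ 2) F ∧
            1 / 20 * (Fintype.card V : ℝ) ^ (x * Real.log (2 / x) / 30000000) ≤
              Module.finrank ℝ F) := by
  refine ⟨fun V ι _ _ _ s t w hw hw1 K hK => upper_ext s t w hw hw1 hK, ?_,
    fun V ι _ _ _ s t w hw hw1 κ hκ => upper_set_ext s t w hw hw1 hκ, ?_⟩
  · intro m K hm hK hK2
    have hcard : Fintype.card (Fin m → Bool) = 2 ^ m := by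
      rw [Fintype.card_fun, Fintype.card_bool, Fintype.card_fin]
    refine ⟨Fin m → Bool, _, inferInstance, inferInstance, inferInstance, P325qz.cs, P325qz.ct,
      P325qz.cw (32 * K ^ 2), fun e => P325qz.cw_nonneg (by positivity) (by linarith) e,
      P325qz.cw_sum hm _, hcard, fun x => ?_, ?_⟩
    · rw [P325qz.cube_density hm, hcard]
      push_cast
      rfl
    · intro L _ _ _ g I _ ρ hρ hcut x hx0 hx1
      have hm' : (0 : ℝ) < m := by exact_mod_cast hm
      obtain ⟨i, F, hF, hd⟩ := P325qz.cube_lower hK hK2 ρ hρ hcut (x := x)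
        ((div_le_iff₀ hm').1 hx0) hx1
      obtain ⟨F', hF', hd'⟩ :=
        slow_ext P325qz.cs P325qz.ct (P325qz.cw (32 * K ^ 2)) g (ρ i) _ F hF
      refine ⟨i, F', hF', ?_⟩
      rw [hd', hcard]
      push_cast
      exact hd
  · intro κ x hκ0 hκ1 hx0 hx1 n0
    obtain ⟨V, ι, i1, i2, i3, s, t, w, h1, h2, h3, h4, h5⟩ :=
      P325qs.set_lower' hκ0 hκ1 hx0 hx1 n0
    refine ⟨V, ι, i1, i2, i3, s, t, w, h1, h2, h3, h4, ?_⟩
    intro L _ _ _ g N P hP
    obtain ⟨i, F, hF, hd⟩ := h5 N P hP
    obtain ⟨F', hF', hd'⟩ := slow_ext s t w g (fun v => if P v = i then (1 : ℝ) else 0) _ F hF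
    exact ⟨i, F', hF', by rw [hd']; exact hd⟩

end Pool.Agent.Lib.P325old.DecompositionExponent
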