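import Pool.Agent.Lib.P325x.Main
import Pool.Agent.Lib.P325e.Main
import Pool.Agent.Lib.P325h.Expander

/-!
Unique games on graphs with a spectral gap: the exact threshold of the semidefinite relaxation,
hardness, and linear programs (Sherali-Adams) of subexponential degree.

Definitions: `Game`, `Game.value`, `Game.SecondEigenvalueLE`, `IsSDPSolution`, `TriangleIneq`,
`Game.sdpObjective` in `Pool/Agent/Lib/P325x/Defs.lean`; `ExpHard` in `Pool/Agent/Lib/P325e/Defs.lean`;
`Inst`, `Inst.encode`, `InNP`, `NPHard`, `GapHard`, `allPerms` in `Pool/Agent/Lib/P325n/Defs.lean`;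
`IsLocalExpectation` in `Pool/Agent/Lib/P325h/Defs.lean`.
-/

namespace Pool.Agent.Lib.P325old.ExpanderThreshold

open Pool.Agent.Lib.P325x Pool.Agent.P325n Pool.Agent.P325e
open Pool.Agent.Lib.P325h (IsLocalExpectation)

/-- Let `μ` bound the second eigenvalue of the graph of a unique game and let `s` be the value of
a relaxation of the game.

1. A positive lower bound on the value of the game, depending on `μ` and `s` only (not on the
   game or its alphabet), if the semidefinite relaxation has a solution of objective at least `s`,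
   exists if and only if `μ < s ^ 2`.
2. If `s ^ 2 ≤ μ < 1` there are finite games with arbitrarily small value whose relaxation has a
   solution of objective at least `s` that also satisfies the triangle inequalities.
3. If the gap problem for unique games is NP-hard with completeness near `c` and soundness near `0`
   (`c = 1`: the Unique Games Conjecture), then the gap problem for games with second eigenvalue at
   most `μ` is NP-hard with completeness near `μ * c` and soundness near `0`.
4. If a Sherali-Adams solution of degree `r ≥ 16 t ^ (-4) (1 - t) ^ (-2) n ^ (log t / log μ)` gives the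
   fraction of satisfied edges of a game with `n` vertices the value at least `s`, then the value of
   the game is at least `s - t`. -/
theorem result :
    (∀ μ s : ℝ, 0 ≤ μ → μ < 1 → 0 < s → s ≤ 1 →
      ((∃ δ : ℝ, 0 < δ ∧ ∀ (U W Ω ι κ : Type) [Fintype Ω] [Fintype ι] [Fintype κ]
          (I : Game U W Ω ι) (X : U ⊕ W → Ω → EuclideanSpace ℝ κ), I.SecondEigenvalueLE μ →
          IsSDPSolution X → s ≤ I.sdpObjective X → δ ≤ I.value) ↔ μ < s ^ 2)) ∧
    (∀ μ s δ : ℝ, μ < 1 → 0 < s → s ^ 2 ≤ μ → 0 < δ →
      ∃ (U W Ω ι κ : Type) (_ : Fintype U) (_ : Fintype W) (_ : Fintype Ω) (_ : Fintype ι)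
        (_ : Fintype κ) (I : Game U W Ω ι) (X : U ⊕ W → Ω → EuclideanSpace ℝ κ),
        I.SecondEigenvalueLE μ ∧ IsSDPSolution X ∧ TriangleIneq X ∧ s ≤ I.sdpObjective X ∧
          I.value ≤ δ) ∧
    (∀ c μ : ℚ, 0 < μ → μ ≤ 1 → GapHard c allPerms → ExpHard (μ * c) μ) ∧
    (∀ μ t s : ℝ, 0 < μ → μ < 1 → 0 < t → t < 1 →
      ∀ (U W Ω ι : Type) [Fintype U] [Fintype W] [Fintype Ω] [Fintype ι] (I : Game U W Ω ι)
        (r : ℕ) (E : ((U ⊕ W → Ω) → ℝ) →ₗ[ℝ] ℝ), I.SecondEigenvalueLE μ →
        IsLocalExpectation r E →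
        16 / (t ^ 4 * (1 - t) ^ 2) *
          ((Fintype.card U : ℝ) + Fintype.card W) ^ (Real.log t / Real.log μ) ≤ r →
        s ≤ E (fun z => I.satFrac (fun u => z (Sum.inl u)) (fun w => z (Sum.inr w))) →
        s - t ≤ I.value) := by
  refine ⟨?_, ?_, ?_, ?_⟩
  · intro μ s hμ0 hμ hs _
    constructor
    · rintro ⟨δ, hδ, h⟩
      by_contra hcon
      push Not at hcon
      obtain ⟨n, q, m, h1, h2, h3⟩ := gap_instances hμ hs hcon (half_pos hδ)
      have h4 := h _ _ _ _ _ (noiseGame n q m) sol h1 (sol_isSDP n) h2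
      linarith
    · exact uniform_bound hμ0 hs
  · intro μ s δ hμ hs hsμ hδ
    obtain ⟨n, q, m, h1, h2, h3⟩ := gap_instances hμ hs hsμ hδ
    exact ⟨_, _, _, _, _, inferInstance, inferInstance, inferInstance, inferInstance,
      inferInstance, noiseGame n q m, sol, h1, sol_isSDP n, sol_triangle n, h2, h3⟩
  · intro c μ hμ0 hμ1 h
    exact expHard_of c μ hμ0 hμ1 h
  · intro μ t s hμ0 hμ1 ht0 ht1 U W Ω ι _ _ _ _ I r E hI hE hr hval
    exact Pool.Agent.Lib.P325h.sa_expander hμ0 hμ1 ht0 ht1 U W Ω ι I hI r E hE hr hval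

end Pool.Agent.Lib.P325old.ExpanderThreshold
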