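import Pool.Agent.Lib.P325k.Main

/-!
The degree of the Sherali-Adams linear programs that solve the gap problem `(s, δ)` for unique
games, for all completeness and soundness parameters.

Definitions: `Game`, `Game.satFrac`, `Game.value` in `Pool/Agent/Lib/P325x/Defs.lean`;
`IsLocalExpectation` in `Pool/Agent/Lib/P325h/Defs.lean`.
-/

namespace Pool.Agent.Lib.P325old.GapExponent

open Pool.Agent.Lib.P325x (Game)
open Pool.Agent.Lib.P325h (IsLocalExpectation)

/-- Let `0 < δ < s < 1`, `D = log (1 / δ)`, `x = log (1 / s) / min D (D ^ 2)` and `C = 250` if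
`s ≤ 31 / 32`, `C = 2500` if `δ ≤ 1 / 1024`, `C = 22000` in all cases. If a unique game with `n`
vertices (and any number of labels) has a Sherali-Adams solution of degree
`r ≥ (1 + 1 / x) ^ 16 * n ^ (C x log (2 + 1 / x))` which gives the fraction of satisfied edges the
value at least `s`, then the value of the game is at least `δ`. -/
theorem result (s δ D x C : ℝ) (hδ : 0 < δ) (hδs : δ < s) (hs1 : s < 1)
    (hD : D = Real.log (1 / δ)) (hx : x = Real.log (1 / s) / min D (D ^ 2))
    (hC : (s ≤ 31 / 32 ∧ C = 250) ∨ (δ ≤ 1 / 1024 ∧ C = 2500) ∨ C = 22000)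
    (U W Ω ι : Type) [Fintype U] [Fintype W] [Fintype Ω] [Fintype ι]
    (I : Game U W Ω ι) (r : ℕ)
    (hr : (1 + 1 / x) ^ 16 * ((Fintype.card U : ℝ) + Fintype.card W) ^
      (C * x * Real.log (2 + 1 / x)) ≤ r)
    (E : ((U ⊕ W → Ω) → ℝ) →ₗ[ℝ] ℝ) (hE : IsLocalExpectation r E)
    (hval : s ≤ E (fun z => I.satFrac (fun u => z (Sum.inl u)) (fun w => z (Sum.inr w)))) :
    δ ≤ I.value :=
  Pool.Agent.Lib.P325k.sa_gap s δ D x C hδ hδs hs1 hD hx hC U W Ω ι I r E hE hr hval

end Pool.Agent.Lib.P325old.GapExponent
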