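import Pool.Agent.Lib.P325P.MainP

/-!
Lower bound on the number of inequalities of arbitrary linear programs (extended formulations) for
the gap problem `(s, δ)` of unique games, with exponent linear in `log (1 / s) / log (1 / δ)`.

Definitions: `Game`, `Game.satFrac`, `Game.value` in `Pool/Agent/Lib/P325x/Defs.lean`.
-/

namespace Pool.Agent.Results.MP_325f1f_lc.LinearExponent

open Pool.Agent.Lib.P325x (Game)

/-- Let `0 < δ ≤ 1 / 2`, `δ ≤ s < 1`, `x = log (1 / s) / log (1 / δ)` and `k ≥ 36 / δ ^ 2`. For all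
large `N`, no linear program with at most `exp ((2 N) ^ (x / 300000))` inequalities decides the gap:
let `Y` be a real vector space with `R ≤ exp ((2 N) ^ (x / 300000))` inequalities `A j y ≤ c j` and
a feasible point `pt z` for every labeling `z` of `N` left and `N` right vertices by `ZMod k`. Then
there is a unique game with linear constraints `z (src e) + b e = z (dst e)` on these vertices, of
value at most `δ`, such that every affine objective `w y + w0` that takes at `pt z`, for every
labeling `z`, the fraction of constraints satisfied by `z` as its value, is larger than `s` at some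
feasible point `y`. -/
theorem result (s δ : ℝ) (hδ : 0 < δ) (hδ2 : δ ≤ 1 / 2) (hδs : δ ≤ s) (hs : s < 1)
    (k : ℕ) (hk : 36 ≤ (k : ℝ) * δ ^ 2) :
    ∃ N0 : ℕ, ∀ N ≥ N0, ∀ (Y : Type) [AddCommGroup Y] [Module ℝ Y] (R : ℕ)
      (A : Fin R → Y →ₗ[ℝ] ℝ) (c : Fin R → ℝ) (pt : (Fin N ⊕ Fin N → ZMod k) → Y),
      (R : ℝ) ≤ Real.exp ((2 * (N : ℝ)) ^ (Real.log (1 / s) / Real.log (1 / δ) / 300000)) →
      (∀ z j, A j (pt z) ≤ c j) →
      ∃ (ι : Type) (_ : Fintype ι) (src dst : ι → Fin N) (b : ι → ZMod k), Nonempty ι ∧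
        (Game.mk src dst (fun e => Equiv.addRight (b e))).value ≤ δ ∧
        ∀ (w : Y →ₗ[ℝ] ℝ) (w0 : ℝ),
          (∀ z, w (pt z) + w0 = (Game.mk src dst (fun e => Equiv.addRight (b e))).satFrac
            (fun u => z (Sum.inl u)) (fun u => z (Sum.inr u))) →
          ∃ y, (∀ j, A j y ≤ c j) ∧ s < w y + w0 :=
  Pool.Agent.Lib.P325P.mainP s δ hδ hδ2 hδs hs k hk

end Pool.Agent.Results.MP_325f1f_lc.LinearExponent
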