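import Pool.Agent.Lib.P325h.Main

/-!
Sherali-Adams linear programs of degree `n ^ (x (1 + log (1 / x)))` for unique games: a trade-off
between the degree and the quality, for any number of labels.

Definitions: `Game`, `Game.satFrac`, `Game.value` in `Pool/Agent/Lib/P325x/Defs.lean`;
`IsLocalExpectation` in `Pool/Agent/Lib/P325h/Defs.lean`.
-/

namespace Pool.Agent.Lib.P325old.SheraliAdams

open Pool.Agent.Lib.P325x (Game)
open Pool.Agent.Lib.P325h (IsLocalExpectation)

/-- Let `0 < ε` and `0 < x ≤ 1`. If a unique game with `n` vertices (and any number of labels) has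
a Sherali-Adams solution of degree `r ≥ 5000 n ^ (x (1 + log (1 / x)))` which gives the fraction of
satisfied edges the value at least `1 - ε`, then the value of the game is at least
`1 - 56 √(ε / x)`. -/
theorem result (ε x : ℝ) (hε : 0 < ε) (hx : 0 < x) (hx1 : x ≤ 1)
    (U W Ω ι : Type) [Fintype U] [Fintype W] [Fintype Ω] [Fintype ι] [Nonempty ι]
    (I : Game U W Ω ι) (r : ℕ)
    (hr : 5000 * ((Fintype.card U : ℝ) + Fintype.card W) ^ (x * (1 + Real.log (1 / x))) ≤ r)
    (E : ((U ⊕ W → Ω) → ℝ) →ₗ[ℝ] ℝ) (hE : IsLocalExpectation r E)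
    (hval : 1 - ε ≤ E (fun z => I.satFrac (fun u => z (Sum.inl u)) (fun w => z (Sum.inr w)))) :
    1 - 56 * √(ε / x) ≤ I.value :=
  Pool.Agent.Lib.P325h.sa_main ε x hε hx hx1 U W Ω ι I r hr E hE hval

end Pool.Agent.Lib.P325old.SheraliAdams
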